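import Pool.Agent.Run7.h107.BDD

/-!
MP_838239_al.  There is a constant `C` such that for `m ≥ C` uniform random elements of the
alternating group `A_n` (`m` fixed, or growing at most like `(log log n)² / C`), with probability
at least `1 - C √m / n`, the walk on `A_n` has gap at least `exp (-C m)` on all functions of level
at most `n ^ (1 - exp (-√m / C))`, and so have all Schreier graphs on `r`-tuples with
`r ≤ n ^ (1 - exp (-√m / C))`.
-/

namespace Pool.Agent.Results.MP_838239_al.ExplicitTupleGap
open RC14 Filter Topology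
open Pool.Agent.Results.MP_75608d_al.GapAllTuples

theorem result : ∃ C : ℝ, 1 ≤ C ∧ ∀ᶠ n : ℕ in atTop, ∀ m : ℕ, C ≤ m →
    C * m ≤ (Real.log (Real.log n)) ^ 2 →
    (Nat.card {x : Fin m → Alt n // ¬ GapUpTo n
        ⌊(n : ℝ) ^ (1 - Real.exp (-(Real.sqrt m / C)))⌋₊ (Real.exp (-(C * m))) x} : ℝ) ≤
      C * Real.sqrt m / n * (Fintype.card (Alt n) : ℝ) ^ m :=
  Run7.h107.BD.TUPmain

end Pool.Agent.Results.MP_838239_al.ExplicitTupleGap
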