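import Pool.Agent.Run7.h624.DM.Final

/-!
MP_838239_al.  For every `δ > 0` and every fixed number `k ≥ k₀(δ)` of uniform random elements of
the alternating group `A_n`: with probability tending to one, the elements generate `A_n` and the
random walk has spectral gap at least `n ^ (-(2 + δ))`.
-/

namespace Pool.Agent.Results.MP_838239_al.PolynomialGap
open RC14 Filter Topology

theorem result (δ : ℝ) (hδ : 0 < δ) : ∃ k₀ : ℕ, ∀ k ≥ k₀, Tendsto (fun n : ℕ =>
    (Nat.card {x : Fin k → Alt n // Expanding ((n : ℝ) ^ (-(2 + δ))) x} : ℝ) /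
        (Fintype.card (Alt n) : ℝ) ^ k) atTop (𝓝 1) := by
  obtain ⟨k₀, hk₀⟩ := Run7.h624.DM.diam_gap δ hδ
  exact ⟨k₀, fun k hk => Run7.h624.DM.tendsto_mono _ _
    (Eventually.of_forall fun n x h => h.2) (hk₀ k hk)⟩

end Pool.Agent.Results.MP_838239_al.PolynomialGap
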